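import Pool.Agent.R53.CubePowB

namespace Pool.Agent.Results.MP_7d5fe8_co.PlotkinRange

open R53.CubePow

/-- The chromatic number of the distance power `Q_n^d` (vertices: subsets of an `n`-set, two
distinct subsets adjacent when their symmetric difference has at most `d` elements; see
`R53.CubePow.Q`).  Let `k ≥ 1` and `p ≥ 0`.  If
`(2^(k-1) + 1) n < (2^k + 1)(d + 1)`, or `d` is even and `(2^(k-1) + 1)(n + 1) < (2^k + 1)(d + 2)`,
and if `d + 1 + p ≤ 2^(k-1) ⌊(n + p) / (2^k - 1)⌋`, then `χ(Q_n^d) = 2^(n-k)`. -/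
theorem result (n k d p : ℕ) (hk : 1 ≤ k)
    (hlow : (2 ^ (k - 1) + 1) * n < (2 ^ k + 1) * (d + 1) ∨
      (Even d ∧ (2 ^ (k - 1) + 1) * (n + 1) < (2 ^ k + 1) * (d + 2)))
    (hup : d + 1 + p ≤ 2 ^ (k - 1) * ((n + p) / (2 ^ k - 1))) :
    (Q n d).chromaticNumber = ((2 ^ (n - k) : ℕ) : ℕ∞) := by
  obtain ⟨s, rfl⟩ : ∃ s, k = s + 1 := ⟨k - 1, by omega⟩
  rw [Nat.add_sub_cancel] at hlow hup
  have h1 : ((n + p) / (2 ^ (s + 1) - 1)) * (2 ^ (s + 1) - 1) ≤ n + p := Nat.div_mul_le_self _ _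
  have hkn : s + 1 ≤ n := by
    obtain ⟨C, hC, -⟩ := exists_code n s d p _ h1 hup
    have := Submodule.finrank_le C
    rw [hC, Module.finrank_pi, Fintype.card_fin] at this
    exact this
  apply le_antisymm
  · exact (upper n s d p _ h1 hup).chromaticNumber_le
  · rw [SimpleGraph.chromaticNumber]
    apply le_iInf₂
    intro m hm
    obtain ⟨c⟩ := hm
    exact_mod_cast lower s d m hkn hlow c

end Pool.Agent.Results.MP_7d5fe8_co.PlotkinRange
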